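import Pool.Agent.MP_5d0005_an.Gn.Fo

set_option autoImplicit false

open Pool.Agent.MP_5d0005_an

namespace Pool.Agent.Results.MP_5d0005_an.GutkinLevels

theorem result (γ : ℝ → ℂ) (L : ℝ) (h : IsTable γ L) :
    ∃ T₁ : Phase L → Phase L, (∀ p q : Phase L, IsBounce γ L p q ↔ q = T₁ p) ∧
      ∀ ε : ℝ, 0 < ε → ∃ d₀ : ℝ, ∀ d : ℝ, d₀ ≤ d → ∀ c : C(Circle, Phase L),
        Function.Injective c → ¬ c.Nullhomotopic →
        (cylShift L d ∘ T₁) '' Set.range c = Set.range c →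
        ∃ g : Set.Ioo (0 : ℝ) Real.pi, (∀ x : AddCircle L, (T₁ (x, g)).2 = g) ∧
          (∀ n : ℤ, (∫ s in (0 : ℝ)..L, deriv γ s ^ n) ≠ 0 →
            (n : ℝ) * Real.sin g * Real.cos (n * g) = Real.cos g * Real.sin (n * g)) ∧
          ∀ z : Circle, |((c z).2 : ℝ) - g| < ε := by
  obtain ⟨P⟩ := Gn.exists_par h
  refine ⟨P.bil, P.bounce, fun ε hε => (P.one_level hε).imp fun d₀ h1 d hd c h2 h3 h4 => ?_⟩
  obtain ⟨g, g1, g2⟩ := h1 d hd c h2 h3 h4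
  refine ⟨g, g1, fun n hn => sub_eq_zero.1 ?_, g2⟩
  exact_mod_cast (mul_eq_zero.1 (P.four ((P.pres g).1 g1) n)).resolve_left (P.co_eq n ▸ hn)

end Pool.Agent.Results.MP_5d0005_an.GutkinLevels
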