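import Pool.Agent.MP_5d0005_an.Dyn

set_option autoImplicit false

open Pool.Agent.MP_5d0005_an

namespace Pool.Agent.Results.MP_5d0005_an.NoInvariantCurve

theorem result : ∃ (γ : ℝ → ℂ) (L d₀ : ℝ), IsTable γ L ∧ 0 < d₀ ∧
    ∃ T₁ : Phase L → Phase L, (∀ p q : Phase L, IsBounce γ L p q ↔ q = T₁ p) ∧
      ∀ d : ℝ, d₀ ≤ d → ∀ c : C(Circle, Phase L), ¬ c.Nullhomotopic →
        (cylShift L d ∘ T₁) '' Set.range c ≠ Set.range c :=
  ⟨table, 2 * Real.pi, 400, isTable, by norm_num, bill, bounce_iff, no_curve⟩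

end Pool.Agent.Results.MP_5d0005_an.NoInvariantCurve
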